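import Pool.Agent.H14.ES.Stm

/-!
# Crew ES, parts SPL, REP, ER4: independent blocks of coins
-/

set_option autoImplicit false

namespace H4.ES

open MeasureTheory Set H14.ES
open scoped ENNReal

theorem measurable_elim (I I' : Type) :
    Measurable (fun q : (I → Bool) × (I' → Bool) => (Sum.elim q.1 q.2 : I ⊕ I' → Bool)) := by
  rw [measurable_pi_iff]
  rintro (i | i)
  · exact (measurable_pi_apply i).comp measurable_fst
  · exact (measurable_pi_apply i).comp measurable_snd

theorem elim_mp (I I' : Type) :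
    MeasurePreserving (fun q : (I → Bool) × (I' → Bool) => (Sum.elim q.1 q.2 : I ⊕ I' → Bool))
      ((mu I).prod (mu I')) (mu (I ⊕ I')) := by
  refine ⟨measurable_elim I I', ?_⟩
  refine Measure.eq_infinitePi (fun _ => coin) fun s t ht => ?_
  rw [Measure.map_apply (measurable_elim I I')
    (MeasurableSet.pi s.countable_toSet fun i _ => ht i)]
  have h1 : (fun q : (I → Bool) × (I' → Bool) => (Sum.elim q.1 q.2 : I ⊕ I' → Bool)) ⁻¹'
      (Set.pi (s : Set (I ⊕ I')) t) =
      (Set.pi (s.toLeft : Set I) (fun i => t (Sum.inl i))) ×ˢ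
        (Set.pi (s.toRight : Set I') (fun i => t (Sum.inr i))) := by
    ext ⟨x, y⟩
    simp only [mem_preimage, Set.mem_pi, Finset.mem_coe, mem_prod, Finset.mem_toLeft,
      Finset.mem_toRight]
    constructor
    · intro h
      exact ⟨fun i hi => h _ hi, fun i hi => h _ hi⟩
    · rintro ⟨h, h'⟩ (i | i) hi
      · exact h i hi
      · exact h' i hi
  rw [h1, Measure.prod_prod]
  unfold mu
  rw [Measure.infinitePi_pi _ fun i _ => ht _, Measure.infinitePi_pi _ fun i _ => ht _,
    ← Finset.prod_disjSum s.toLeft s.toRight (fun i => coin (t i)),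
    Finset.toLeft_disjSum_toRight]

theorem t_SPL : S_SPL := by
  intro I I' _ _
  have hm : Measurable (fun ω : I ⊕ I' → Bool => (ω ∘ Sum.inl, ω ∘ Sum.inr)) :=
    (measurable_pi_lambda _ fun i => measurable_pi_apply _).prodMk
      (measurable_pi_lambda _ fun i => measurable_pi_apply _)
  refine ⟨hm, ?_⟩
  rw [← (elim_mp I I').map_eq, Measure.map_map hm (measurable_elim I I')]
  have : (fun ω : I ⊕ I' → Bool => (ω ∘ Sum.inl, ω ∘ Sum.inr)) ∘
      (fun q : (I → Bool) × (I' → Bool) => (Sum.elim q.1 q.2 : I ⊕ I' → Bool)) = id := by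
    funext q
    rfl
  rw [this, Measure.map_id]

/-- precomposition with an injective map preserves the coin measure -/
theorem inj_mp {I K : Type} (e : K → I) (he : Function.Injective e) :
    MeasurePreserving (fun (ω : I → Bool) (k : K) => ω (e k)) (mu I) (mu K) :=
  ⟨measurable_pi_lambda _ fun _ => measurable_pi_apply _,
    Measure.map_infinitePi_infinitePi_of_inj (P := fun _ : I => coin) he⟩

/-- a general way to build a coin configuration from two independent ones -/
theorem glue_mp {I I' K : Type} (e : K → I ⊕ I') (he : Function.Injective e) :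
    MeasurePreserving (fun (q : (I → Bool) × (I' → Bool)) (k : K) => Sum.elim q.1 q.2 (e k))
      ((mu I).prod (mu I')) (mu K) :=
  (inj_mp e he).comp (elim_mp I I')

theorem t_REP : S_REP := by
  intro D _
  constructor
  · have h := glue_mp (I := D) (I' := D × ℕ) (K := D × ℕ)
      (fun i => if i.2 = 0 then Sum.inl i.1 else Sum.inr i) (by
        rintro ⟨d, n⟩ ⟨d', n'⟩ h
        by_cases h0 : n = 0 <;> by_cases h0' : n' = 0 <;> simp_all)
    convert h using 1
    funext q i
    by_cases h0 : i.2 = 0 <;> simp [h0]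
  · have h := glue_mp (I := D) (I' := D × ℕ) (K := D × ℕ)
      (fun i => if i.2 = 0 then Sum.inl i.1 else Sum.inr (i.1, i.2 - 1)) (by
        rintro ⟨d, n⟩ ⟨d', n'⟩ h
        by_cases h0 : n = 0 <;> by_cases h0' : n' = 0 <;> simp_all
        omega)
    convert h using 1
    funext q i
    by_cases h0 : i.2 = 0 <;> simp [h0]

/-- the splitting into four blocks -/
def split4 (D : Type) (ω : (D ⊕ D) ⊕ ((D × ℕ) ⊕ (D × ℕ)) → Bool) :
    ((D → Bool) × (D → Bool)) × ((D × ℕ → Bool) × (D × ℕ → Bool)) :=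
  ((ω ∘ Sum.inl ∘ Sum.inl, ω ∘ Sum.inl ∘ Sum.inr), (ω ∘ Sum.inr ∘ Sum.inl, ω ∘ Sum.inr ∘ Sum.inr))

theorem split4_mp (D : Type) [Countable D] :
    MeasurePreserving (split4 D) (mu ((D ⊕ D) ⊕ ((D × ℕ) ⊕ (D × ℕ))))
      (((mu D).prod (mu D)).prod ((mu (D × ℕ)).prod (mu (D × ℕ)))) := by
  have h1 := t_SPL (D ⊕ D) ((D × ℕ) ⊕ (D × ℕ))
  have h2 := t_SPL D D
  have h3 := t_SPL (D × ℕ) (D × ℕ)
  exact (h2.prod h3).comp h1

/-- the permutation of the four blocks -/
def perm4 {D : Type} (p : Equiv.Perm D) : Equiv.Perm ((D ⊕ D) ⊕ ((D × ℕ) ⊕ (D × ℕ))) :=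
  Equiv.sumCongr (Equiv.sumCongr p p) (Equiv.sumCongr (lift p) (lift p))

theorem perm4_mul {D : Type} (p q : Equiv.Perm D) : perm4 (p * q) = perm4 p * perm4 q := by
  ext (( i | i) | (i | i)) <;> rfl

theorem perm4_one {D : Type} : perm4 (1 : Equiv.Perm D) = 1 := by
  ext (( i | i) | (i | i)) <;> rfl

theorem perm4_pow {D : Type} (p : Equiv.Perm D) (n : ℕ) : perm4 (p ^ n) = perm4 p ^ n := by
  induction n with
  | zero => exact perm4_one
  | succ k ih => rw [pow_succ, pow_succ, perm4_mul, ih]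

theorem perm4_infOrb {D : Type} (p : Equiv.Perm D) (hp : InfOrb p) : InfOrb (perm4 p) := by
  intro i n hn h
  rw [← perm4_pow] at h
  rcases i with (i | i) | (i | i)
  · exact hp i n hn (Sum.inl_injective (Sum.inl_injective h))
  · exact hp i n hn (Sum.inr_injective (Sum.inl_injective h))
  · have h1 : lift (p ^ n) i = i := Sum.inl_injective (Sum.inr_injective h)
    exact hp i.1 n hn (congrArg Prod.fst h1)
  · have h1 : lift (p ^ n) i = i := Sum.inr_injective (Sum.inr_injective h)
    exact hp i.1 n hn (congrArg Prod.fst h1)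

theorem split4_sh {D : Type} (p : Equiv.Perm D) (ω : (D ⊕ D) ⊕ ((D × ℕ) ⊕ (D × ℕ)) → Bool) :
    split4 D (sh (perm4 p) ω) = ((sh p (split4 D ω).1.1, sh p (split4 D ω).1.2),
      (sh (lift p) (split4 D ω).2.1, sh (lift p) (split4 D ω).2.2)) := rfl

theorem t_ER4 (hERG : S_ERG) : S_ER4 := by
  intro D _ p hp A hA hinv
  have hmp := split4_mp D
  rw [← hmp.measure_preimage hA.nullMeasurableSet]
  refine hERG _ (perm4 p) (perm4_infOrb p hp) (split4 D ⁻¹' A) (hmp.measurable hA) ?_
  have h1 := hmp.quasiMeasurePreserving.preimage_ae_eq hinv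
  exact h1

end H4.ES
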