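import Pool.Agent.H14.ES.Stm

/-!
# Crew ES, part GRP: the concrete groups
-/

set_option autoImplicit false

namespace H4.ES

open MeasureTheory Set H14.ES
open scoped ENNReal commutatorElement

theorem B_add (x : ℕ → Bool) (e e' : ℤ →₀ ℤ) : B x (e + e') = B x e + B x e' := by
  unfold B
  refine Finsupp.sum_add_index' (fun k => by simp) (fun k a b => ?_)
  split_ifs <;> simp

theorem B_single (x : ℕ → Bool) (k v : ℤ) :
    B x (Finsupp.single k v) = if 0 < k ∧ x (k - 1).toNat = true then v else 0 := by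
  unfold B
  rw [Finsupp.sum_single_index (by simp)]

theorem shf_add (e e' : ℤ →₀ ℤ) : shf (e + e') = shf e + shf e' := by
  exact map_add (Finsupp.domLCongr (R := ℤ) (M := ℤ) (Equiv.addRight (1 : ℤ))) e e'

theorem shf_single (k v : ℤ) : shf (Finsupp.single k v) = Finsupp.single (k + 1) v := by
  exact Finsupp.domLCongr_single (R := ℤ) (Equiv.addRight (1 : ℤ)) k v

theorem shf_pow_add (m : ℕ) (e e' : ℤ →₀ ℤ) :
    ((shf : Equiv.Perm (ℤ →₀ ℤ)) ^ m) (e + e') =
      ((shf : Equiv.Perm (ℤ →₀ ℤ)) ^ m) e + ((shf : Equiv.Perm (ℤ →₀ ℤ)) ^ m) e' := by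
  induction m generalizing e e' with
  | zero => rfl
  | succ k ih =>
    rw [pow_succ, Equiv.Perm.mul_apply, Equiv.Perm.mul_apply, Equiv.Perm.mul_apply, shf_add, ih]

theorem shf_pow_single (m : ℕ) (k v : ℤ) :
    ((shf : Equiv.Perm (ℤ →₀ ℤ)) ^ m) (Finsupp.single k v) = Finsupp.single (k + m) v := by
  induction m generalizing k with
  | zero => simp
  | succ j ih =>
    rw [pow_succ, Equiv.Perm.mul_apply, shf_single, ih]
    congr 1
    push_cast
    ring

theorem tP_pow (m : ℕ) (e : ℤ →₀ ℤ) (z : ℤ) :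
    (tP ^ m) (e, z) = (((shf : Equiv.Perm (ℤ →₀ ℤ)) ^ m) e, z) := by
  induction m generalizing e with
  | zero => rfl
  | succ j ih =>
    rw [pow_succ, Equiv.Perm.mul_apply, pow_succ, Equiv.Perm.mul_apply, ← ih]
    rfl

theorem aP_apply (x : ℕ → Bool) (e : ℤ →₀ ℤ) (z : ℤ) :
    aP x (e, z) = (e + Finsupp.single 0 1, z + B x e) := rfl

/-- the translation of the last coordinate -/
def trn (c : ℤ) : Equiv.Perm J := Equiv.prodCongr (Equiv.refl _) (Equiv.addRight c)

theorem comm_eq (x : ℕ → Bool) (n : ℕ) :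
    ⁅aP x, tP ^ (n + 1) * aP x * (tP ^ (n + 1))⁻¹⁆ = trn (if x n then 1 else 0) := by
  rw [commutatorElement_def]
  set b := tP ^ (n + 1) * aP x * (tP ^ (n + 1))⁻¹ with hb
  have hS : ∀ (e : ℤ →₀ ℤ) (z : ℤ), b (((shf : Equiv.Perm (ℤ →₀ ℤ)) ^ (n + 1)) e, z) =
      (((shf : Equiv.Perm (ℤ →₀ ℤ)) ^ (n + 1)) (e + Finsupp.single 0 1), z + B x e) := by
    intro e z
    have h0 : (tP ^ (n + 1))⁻¹ ((tP ^ (n + 1)) (e, z)) = (e, z) :=
      Equiv.symm_apply_apply (tP ^ (n + 1)) (e, z)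
    rw [hb, Equiv.Perm.mul_apply, Equiv.Perm.mul_apply, ← tP_pow, h0, aP_apply, tP_pow]
  have key : aP x * b = trn (if x n then 1 else 0) * (b * aP x) := by
    refine Equiv.ext fun q => ?_
    obtain ⟨q', rfl⟩ := (tP ^ (n + 1)).surjective q
    obtain ⟨e, z⟩ := q'
    rw [tP_pow]
    simp only [Equiv.Perm.mul_apply]
    rw [hS, aP_apply, aP_apply]
    have h1 : ((shf : Equiv.Perm (ℤ →₀ ℤ)) ^ (n + 1)) e + Finsupp.single 0 1 =
        ((shf : Equiv.Perm (ℤ →₀ ℤ)) ^ (n + 1)) (e + Finsupp.single (-((n : ℤ) + 1)) 1) := by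
      rw [shf_pow_add, shf_pow_single]
      congr 2
      push_cast
      ring
    rw [h1, hS]
    have h2 : ∀ (e : ℤ →₀ ℤ) (z c : ℤ), trn c (e, z) = (e, z + c) := fun _ _ _ => rfl
    rw [h2]
    have h3 : ((shf : Equiv.Perm (ℤ →₀ ℤ)) ^ (n + 1)) (e + Finsupp.single 0 1) +
        Finsupp.single 0 1 = ((shf : Equiv.Perm (ℤ →₀ ℤ)) ^ (n + 1))
          (e + Finsupp.single (-((n : ℤ) + 1)) 1 + Finsupp.single 0 1) := by
      rw [add_right_comm e, shf_pow_add _ (e + Finsupp.single 0 1), shf_pow_single]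
      congr 2
      push_cast
      ring
    rw [h3]
    refine Prod.ext rfl ?_
    show z + B x e + B x (((shf : Equiv.Perm (ℤ →₀ ℤ)) ^ (n + 1)) (e + Finsupp.single 0 1)) =
      z + B x (((shf : Equiv.Perm (ℤ →₀ ℤ)) ^ (n + 1)) e) +
        B x (e + Finsupp.single (-((n : ℤ) + 1)) 1) + (if x n then 1 else 0)
    rw [shf_pow_add, B_add, B_add, shf_pow_single, B_single, B_single]
    have h4 : (0 : ℤ) + ((n + 1 : ℕ) : ℤ) - 1 = (n : ℤ) := by push_cast; ring
    have h5 : (0 : ℤ) < 0 + ((n + 1 : ℕ) : ℤ) := by positivity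
    have h6 : ¬ (0 : ℤ) < -((n : ℤ) + 1) := by omega
    have h7 : (if 0 < -((n : ℤ) + 1) ∧ x (-((n : ℤ) + 1) - 1).toNat = true then (1 : ℤ) else 0) = 0 :=
      if_neg (fun h => h6 h.1)
    rw [h4, Int.toNat_natCast, h7]
    by_cases hx : x n = true
    · rw [if_pos ⟨h5, hx⟩, if_pos hx]; ring
    · rw [if_neg (fun h => hx h.2), if_neg hx]; ring
  calc aP x * b * (aP x)⁻¹ * b⁻¹ = (aP x * b) * (b * aP x)⁻¹ := by group
    _ = trn (if x n then 1 else 0) := by rw [key]; group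

theorem piJ_true (x : ℕ → Bool) : piJ x (FreeGroup.of true) = aP x := by
  unfold piJ
  rw [FreeGroup.lift_apply_of]
  rfl

theorem piJ_false (x : ℕ → Bool) : piJ x (FreeGroup.of false) = tP := by
  unfold piJ
  rw [FreeGroup.lift_apply_of]
  rfl

theorem piJ_wd (x : ℕ → Bool) (n : ℕ) : piJ x (wd n) = trn (if x n then 1 else 0) := by
  unfold wd
  rw [map_commutatorElement, map_mul, map_mul, map_inv, map_pow, piJ_true, piJ_false, comm_eq]

theorem piD_apply (x : ℕ → Bool) (k u : FreeGroup Bool) (j : J) :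
    piD x k (u, j) = (u, piJ x k j) := rfl

theorem aP_pow_fst (x : ℕ → Bool) (n : ℕ) (q : J) :
    ((aP x ^ n) q).1 = q.1 + Finsupp.single 0 (n : ℤ) := by
  induction n generalizing q with
  | zero => simp
  | succ k ih =>
    rw [pow_succ, Equiv.Perm.mul_apply, ih]
    obtain ⟨e, z⟩ := q
    rw [aP_apply, add_assoc, ← Finsupp.single_add]
    congr 2
    push_cast
    ring

theorem t_GRP : S_GRP := by
  refine ⟨?_, ?_, ?_, ?_⟩
  · rintro h ⟨u, j⟩ e
    have h1 : h * u = u := congrArg Prod.fst e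
    exact mul_eq_right.1 h1
  · intro x h k
    refine Equiv.ext fun q => ?_
    rfl
  · rintro x ⟨u, q⟩ n hn e
    rw [← map_pow, piD_apply, map_pow, piJ_true] at e
    have h1 : (aP x ^ n) q = q := congrArg Prod.snd e
    have h2 := aP_pow_fst x n q
    rw [h1] at h2
    have h3 : Finsupp.single (0 : ℤ) (n : ℤ) = 0 := left_eq_add.1 h2
    rw [Finsupp.single_eq_zero] at h3
    omega
  · intro x n u e z
    rw [piD_apply, piJ_wd]
    rfl

end H4.ES
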